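import Pool.Agent.Work.MP_8f87b2_h97.P5

/-!
# MP_8f87b2_co: the types P5, P5M (L pair merged with the E pair of its host)

`TyP5` : F = {`o(S)o`, `oo(S)`, `S(o)o`, `(oo)S`}, old `(o(S))`.
`TyP5M`: F = {`(S)oo`, `S(oo)`, `o(o)S`, `o(S)o`}, old `((S)o)`.
-/

set_option autoImplicit false

namespace Pool.OddHC

open Finset Equiv BinaryTree Pool.Agent.Work.MP_8f87b2_co

variable {k : ℕ}

namespace P5

/-- the word `()` -/
def o : BinaryTree Unit := .nil △ .nil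

/-- the words of P5 over `S` : `(o(S))`, `o(S)o`, `S(o)o`, `(oo)S`, `oo(S)` -/
def wR (S : BinaryTree Unit) : ℕ → BinaryTree Unit
  | 0 => (.nil △ (S △ .nil)) △ .nil
  | 1 => .nil △ (S △ o)
  | 2 => app S (o △ o)
  | 3 => (.nil △ o) △ S
  | _ => .nil △ (.nil △ (S △ .nil))

/-- the words of P5M over `S` : `((S)o)`, `(S)oo`, `S(oo)`, `o(o)S`, `o(S)o` -/
def wM (S : BinaryTree Unit) : ℕ → BinaryTree Unit
  | 0 => (S △ o) △ .nil
  | 1 => S △ (.nil △ o)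
  | 2 => app S ((.nil △ o) △ .nil)
  | 3 => .nil △ (o △ S)
  | _ => .nil △ (S △ o)

theorem wR_eq (S : BinaryTree Unit) : ∀ i < 5, bw o S .nil .nil .nil (ix i) = wR S i := by
  intro i hi
  interval_cases i <;> rfl

theorem wM_eq (S : BinaryTree Unit) : ∀ i < 5, bw .nil S o .nil .nil (ix i) = wM S i := by
  intro i hi
  interval_cases i <;> rfl

theorem ht_wR {S : BinaryTree Unit} (h : 2 ≤ ht S) :
    ht (wR S 0) = ht S + 2 ∧ ht (wR S 1) = ht S + 1 ∧ ht (wR S 2) = ht S ∧ ht (wR S 3) = ht S ∧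
      ht (wR S 4) = ht S + 1 := by
  have e : ht o = 1 := rfl
  have en : ht (.nil : BinaryTree Unit) = 0 := rfl
  refine ⟨?_, ?_, ?_, ?_, ?_⟩
  · simp only [wR, ht_node, en]; omega
  · simp only [wR, ht_node, en, e]; omega
  · simp only [wR, ht_app, ht_node, e]; omega
  · simp only [wR, ht_node, en, e]; omega
  · simp only [wR, ht_node, en]; omega

theorem ht_wM {S : BinaryTree Unit} (h : 2 ≤ ht S) :
    ht (wM S 0) = ht S + 2 ∧ ht (wM S 1) = ht S + 1 ∧ ht (wM S 2) = ht S ∧ ht (wM S 3) = ht S ∧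
      ht (wM S 4) = ht S + 1 := by
  have e : ht o = 1 := rfl
  have en : ht (.nil : BinaryTree Unit) = 0 := rfl
  refine ⟨?_, ?_, ?_, ?_, ?_⟩
  · simp only [wM, ht_node, en, e]; omega
  · simp only [wM, ht_node, en, e]; omega
  · simp only [wM, ht_app, ht_node, en, e]; omega
  · simp only [wM, ht_node, en, e]; omega
  · simp only [wM, ht_node, en, e]; omega

end P5

open P5

/-- TYPE P5 -/
def TyP5 (F : Set (Cyc k)) (g : DG k) : Prop :=
  ∃ S, 2 ≤ ht S ∧ TyPent o S .nil .nil .nil F g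

/-- TYPE P5M -/
def TyP5M (F : Set (Cyc k)) (g : DG k) : Prop :=
  ∃ S, 2 ≤ ht S ∧ TyPent .nil S o .nil .nil F g

variable {F : Set (Cyc k)} {g : DG k}

theorem TyP5.hF (h : TyP5 F g) : ∀ w, w ∈ g.F ↔ cyc w ∈ F := by
  obtain ⟨S, -, h⟩ := h
  exact h.hF

theorem TyP5.new (h : TyP5 F g) : ∀ c ∈ F, ∃ u ∈ g.B, cyc u = c := by
  obtain ⟨S, -, h⟩ := h
  exact h.new

theorem TyP5.old (h : TyP5 F g) : ∃ u ∈ g.B, cyc u ∉ F := by
  obtain ⟨S, -, h⟩ := h
  exact h.old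

theorem TyP5.arcs (h : TyP5 F g) : g.arcs = ∅ := by
  obtain ⟨S, -, h⟩ := h
  exact h.arcs

theorem TyP5.path (h : TyP5 F g) : ∀ a ∈ g.arcs, ∃ n : ℕ,
    (TT ^ (n + 1)) a.1 = a.2 ∧ a.1 ∈ g.B ∧
    ∀ i < n, (TT ^ (i + 1)) a.1 ∉ g.B ∧ (TT ^ (i + 1)) a.1 ∈ innA a := by
  obtain ⟨S, -, h⟩ := h
  exact h.path

theorem TyP5.abs (h : TyP5 F g) : g.Abs := by
  obtain ⟨S, -, h⟩ := h
  exact h.abs

theorem TyP5M.hF (h : TyP5M F g) : ∀ w, w ∈ g.F ↔ cyc w ∈ F := by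
  obtain ⟨S, -, h⟩ := h
  exact h.hF

theorem TyP5M.new (h : TyP5M F g) : ∀ c ∈ F, ∃ u ∈ g.B, cyc u = c := by
  obtain ⟨S, -, h⟩ := h
  exact h.new

theorem TyP5M.old (h : TyP5M F g) : ∃ u ∈ g.B, cyc u ∉ F := by
  obtain ⟨S, -, h⟩ := h
  exact h.old

theorem TyP5M.arcs (h : TyP5M F g) : g.arcs = ∅ := by
  obtain ⟨S, -, h⟩ := h
  exact h.arcs

theorem TyP5M.path (h : TyP5M F g) : ∀ a ∈ g.arcs, ∃ n : ℕ,
    (TT ^ (n + 1)) a.1 = a.2 ∧ a.1 ∈ g.B ∧
    ∀ i < n, (TT ^ (i + 1)) a.1 ∉ g.B ∧ (TT ^ (i + 1)) a.1 ∈ innA a := by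
  obtain ⟨S, -, h⟩ := h
  exact h.path

theorem TyP5M.abs (h : TyP5M F g) : g.Abs := by
  obtain ⟨S, -, h⟩ := h
  exact h.abs

/-- the words of P5; only `(o(S))` is old -/
theorem TyP5.words (h : TyP5 F g) : ∃ S, 2 ≤ ht S ∧ S.numNodes + 3 = k ∧
    (∀ x ∈ g.B, (x.1 = wR S 0 ∧ cyc x ∉ F) ∨
      (cyc x ∈ F ∧ (x.1 = wR S 1 ∨ x.1 = wR S 2 ∨ x.1 = wR S 3 ∨ x.1 = wR S 4))) ∧
    ∀ c ∈ F, htc c = ht S + 1 ∨ htc c = ht S := by
  obtain ⟨S, h2, h⟩ := h
  have hm : ∀ x ∈ g.B, (x.1 = wR S 0 ∧ cyc x ∉ F) ∨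
      (cyc x ∈ F ∧ (x.1 = wR S 1 ∨ x.1 = wR S 2 ∨ x.1 = wR S 3 ∨ x.1 = wR S 4)) := by
    intro x hx
    obtain ⟨i, hi, e, h1, h0⟩ := h.mem x hx
    rw [wR_eq S i hi] at e
    interval_cases i
    · exact Or.inl ⟨e, h0 rfl⟩
    · exact Or.inr ⟨h1 (by omega), Or.inl e⟩
    · exact Or.inr ⟨h1 (by omega), Or.inr (Or.inl e)⟩
    · exact Or.inr ⟨h1 (by omega), Or.inr (Or.inr (Or.inl e))⟩
    · exact Or.inr ⟨h1 (by omega), Or.inr (Or.inr (Or.inr e))⟩
  obtain ⟨t0, t1, t2, t3, t4⟩ := ht_wR h2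
  refine ⟨S, h2, ?_, hm, ?_⟩
  · obtain ⟨w, hw, -, -, -⟩ := h
    have h0 : (w 0).1.numNodes = k := X_num (w 0)
    rw [hw 0 (by omega)] at h0
    change (w1 .nil (w1 o S .nil) .nil).numNodes = k at h0
    rw [w1_num, w1_num] at h0
    have e1 : o.numNodes = 1 := rfl
    have e2 : (.nil : BinaryTree Unit).numNodes = 0 := rfl
    omega
  · intro c hc
    obtain ⟨x, hx, rfl⟩ := h.new c hc
    rw [htc_cyc]
    rcases hm x hx with ⟨-, h3⟩ | ⟨-, e | e | e | e⟩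
    · exact absurd hc h3
    · rw [e, t1]; exact Or.inl rfl
    · rw [e, t2]; exact Or.inr rfl
    · rw [e, t3]; exact Or.inr rfl
    · rw [e, t4]; exact Or.inl rfl

/-- the words of P5M; only `((S)o)` is old -/
theorem TyP5M.words (h : TyP5M F g) : ∃ S, 2 ≤ ht S ∧ S.numNodes + 3 = k ∧
    (∀ x ∈ g.B, (x.1 = wM S 0 ∧ cyc x ∉ F) ∨
      (cyc x ∈ F ∧ (x.1 = wM S 1 ∨ x.1 = wM S 2 ∨ x.1 = wM S 3 ∨ x.1 = wM S 4))) ∧
    ∀ c ∈ F, htc c = ht S + 1 ∨ htc c = ht S := by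
  obtain ⟨S, h2, h⟩ := h
  have hm : ∀ x ∈ g.B, (x.1 = wM S 0 ∧ cyc x ∉ F) ∨
      (cyc x ∈ F ∧ (x.1 = wM S 1 ∨ x.1 = wM S 2 ∨ x.1 = wM S 3 ∨ x.1 = wM S 4)) := by
    intro x hx
    obtain ⟨i, hi, e, h1, h0⟩ := h.mem x hx
    rw [wM_eq S i hi] at e
    interval_cases i
    · exact Or.inl ⟨e, h0 rfl⟩
    · exact Or.inr ⟨h1 (by omega), Or.inl e⟩
    · exact Or.inr ⟨h1 (by omega), Or.inr (Or.inl e)⟩
    · exact Or.inr ⟨h1 (by omega), Or.inr (Or.inr (Or.inl e))⟩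
    · exact Or.inr ⟨h1 (by omega), Or.inr (Or.inr (Or.inr e))⟩
  obtain ⟨t0, t1, t2, t3, t4⟩ := ht_wM h2
  refine ⟨S, h2, ?_, hm, ?_⟩
  · obtain ⟨w, hw, -, -, -⟩ := h
    have h0 : (w 0).1.numNodes = k := X_num (w 0)
    rw [hw 0 (by omega)] at h0
    change (w1 .nil (w1 .nil S o) .nil).numNodes = k at h0
    rw [w1_num, w1_num] at h0
    have e1 : o.numNodes = 1 := rfl
    have e2 : (.nil : BinaryTree Unit).numNodes = 0 := rfl
    omega
  · intro c hc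
    obtain ⟨x, hx, rfl⟩ := h.new c hc
    rw [htc_cyc]
    rcases hm x hx with ⟨-, h3⟩ | ⟨-, e | e | e | e⟩
    · exact absurd hc h3
    · rw [e, t1]; exact Or.inl rfl
    · rw [e, t2]; exact Or.inr rfl
    · rw [e, t3]; exact Or.inr rfl
    · rw [e, t4]; exact Or.inl rfl

/-- RANK: the old word is higher than all new T-cycles -/
theorem TyP5.rank (h : TyP5 F g) : ∀ x ∈ g.B, cyc x ∈ F ∨ ∀ c ∈ F, htc c < htc (cyc x) := by
  obtain ⟨S, h2, -, hm, hc⟩ := h.words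
  intro x hx
  rcases hm x hx with ⟨e, -⟩ | ⟨h1, -⟩
  · right
    intro c hcF
    rw [htc_cyc, e, (ht_wR h2).1]
    rcases hc c hcF with h | h <;> omega
  · exact Or.inl h1

theorem TyP5M.rank (h : TyP5M F g) : ∀ x ∈ g.B, cyc x ∈ F ∨ ∀ c ∈ F, htc c < htc (cyc x) := by
  obtain ⟨S, h2, -, hm, hc⟩ := h.words
  intro x hx
  rcases hm x hx with ⟨e, -⟩ | ⟨h1, -⟩
  · right
    intro c hcF
    rw [htc_cyc, e, (ht_wM h2).1]
    rcases hc c hcF with h | h <;> omega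
  · exact Or.inl h1

theorem wR_num (S : BinaryTree Unit) (i : ℕ) : (wR S i).numNodes = S.numNodes + 3 := by
  have e1 : o.numNodes = 1 := rfl
  match i with
  | 0 => simp only [wR, numNodes]; try omega
  | 1 => simp only [wR, numNodes, e1]; try omega
  | 2 => simp only [wR, num_app, numNodes, e1]; try omega
  | 3 => simp only [wR, numNodes, e1]; try omega
  | (n + 4) => simp only [wR, numNodes]; try omega

theorem wM_num (S : BinaryTree Unit) (i : ℕ) : (wM S i).numNodes = S.numNodes + 3 := by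
  have e1 : o.numNodes = 1 := rfl
  match i with
  | 0 => simp only [wM, numNodes, e1]; try omega
  | 1 => simp only [wM, numNodes, e1]; try omega
  | 2 => simp only [wM, num_app, numNodes, e1]; try omega
  | 3 => simp only [wM, numNodes, e1]; try omega
  | (n + 4) => simp only [wM, numNodes, e1]; try omega

/-- EXISTENCE of P5: the host pair `y = o(S)o`, `oo(S)` and the family leftovers `S(o)o`, `(oo)S` -/
theorem TyP5.ex {S : BinaryTree Unit} (h2 : 2 ≤ ht S) {y l p q : X k}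
    (hy : y.1 = .nil △ (S △ o)) (hl : l.1 = .nil △ (.nil △ (S △ .nil)))
    (hp : p.1 = app S (o △ o)) (hq : q.1 = (.nil △ o) △ S)
    (hyl : cyc y ≠ cyc l) (hpq : cyc p ≠ cyc q) :
    ∃ g, TyP5 {cyc y, cyc l, cyc p, cyc q} g := by
  obtain ⟨t0, t1, t2, t3, t4⟩ := ht_wR h2
  have hk : S.numNodes + 3 = k := by
    have := wR_num S 2
    change (app S (o △ o)).numNodes = _ at this
    rw [← hp, X_num] at this
    exact this.symm
  obtain ⟨a, ha⟩ : ∃ a : X k, a.1 = wR S 0 :=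
    ⟨⟨wR S 0, mem_treesOfNumNodesEq.2 (by rw [wR_num, hk])⟩, rfl⟩
  obtain ⟨w, hw⟩ : ∃ w : ℕ → X k, w = fun i => match i with
    | 0 => a
    | 1 => y
    | 2 => p
    | 3 => q
    | _ => l := ⟨_, rfl⟩
  have hv : ∀ i < 5, (w i).1 = wR S i := by
    intro i hi
    rw [hw]
    interval_cases i
    · exact ha
    · exact hy
    · exact hp
    · exact hq
    · exact hl
  have hh : ∀ i < 5, htc (cyc (w i)) = ht (wR S i) := by
    intro i hi
    rw [htc_cyc, hv i hi]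
  have h0 := hh 0 (by omega)
  have h1 := hh 1 (by omega)
  have h3 := hh 2 (by omega)
  have h4 := hh 3 (by omega)
  have h5 := hh 4 (by omega)
  rw [t0] at h0
  rw [t1] at h1
  rw [t2] at h3
  rw [t3] at h4
  rw [t4] at h5
  have d14 : cyc (w 1) ≠ cyc (w 4) := by rw [hw]; exact hyl
  have d23 : cyc (w 2) ≠ cyc (w 3) := by rw [hw]; exact hpq
  have key : ∀ i < 5, ∀ j < 5, cyc (w i) = cyc (w j) → i = j := by
    intro i hi j hj e
    have e' := congrArg htc e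
    interval_cases i <;> interval_cases j <;> first
      | rfl
      | exact absurd e d14
      | exact absurd e.symm d14
      | exact absurd e d23
      | exact absurd e.symm d23
      | (exfalso; omega)
  refine ⟨cDG ((range 5).image w) (F4 w), S, h2, w, ?_, key, ?_, rfl⟩
  · intro i hi
    rw [hv i hi, wR_eq S i hi]
  · rw [hw]
    ext c
    simp only [F4, Set.mem_insert_iff, Set.mem_singleton_iff]
    tauto

/-- EXISTENCE of P5M: the host pair `y = o(S)o`, `(S)oo` and the family leftovers `S(oo)`, `o(o)S` -/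
theorem TyP5M.ex {S : BinaryTree Unit} (h2 : 2 ≤ ht S) {y l p q : X k}
    (hy : y.1 = .nil △ (S △ o)) (hl : l.1 = S △ (.nil △ o))
    (hp : p.1 = app S ((.nil △ o) △ .nil)) (hq : q.1 = .nil △ (o △ S))
    (hyl : cyc y ≠ cyc l) (hpq : cyc p ≠ cyc q) :
    ∃ g, TyP5M {cyc y, cyc l, cyc p, cyc q} g := by
  obtain ⟨t0, t1, t2, t3, t4⟩ := ht_wM h2
  have hk : S.numNodes + 3 = k := by
    have := wM_num S 2
    change (app S ((.nil △ o) △ .nil)).numNodes = _ at this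
    rw [← hp, X_num] at this
    exact this.symm
  obtain ⟨a, ha⟩ : ∃ a : X k, a.1 = wM S 0 :=
    ⟨⟨wM S 0, mem_treesOfNumNodesEq.2 (by rw [wM_num, hk])⟩, rfl⟩
  obtain ⟨w, hw⟩ : ∃ w : ℕ → X k, w = fun i => match i with
    | 0 => a
    | 1 => l
    | 2 => p
    | 3 => q
    | _ => y := ⟨_, rfl⟩
  have hv : ∀ i < 5, (w i).1 = wM S i := by
    intro i hi
    rw [hw]
    interval_cases i
    · exact ha
    · exact hl
    · exact hp
    · exact hq
    · exact hy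
  have hh : ∀ i < 5, htc (cyc (w i)) = ht (wM S i) := by
    intro i hi
    rw [htc_cyc, hv i hi]
  have h0 := hh 0 (by omega)
  have h1 := hh 1 (by omega)
  have h3 := hh 2 (by omega)
  have h4 := hh 3 (by omega)
  have h5 := hh 4 (by omega)
  rw [t0] at h0
  rw [t1] at h1
  rw [t2] at h3
  rw [t3] at h4
  rw [t4] at h5
  have d14 : cyc (w 4) ≠ cyc (w 1) := by rw [hw]; exact hyl
  have d23 : cyc (w 2) ≠ cyc (w 3) := by rw [hw]; exact hpq
  have key : ∀ i < 5, ∀ j < 5, cyc (w i) = cyc (w j) → i = j := by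
    intro i hi j hj e
    have e' := congrArg htc e
    interval_cases i <;> interval_cases j <;> first
      | rfl
      | exact absurd e d14
      | exact absurd e.symm d14
      | exact absurd e d23
      | exact absurd e.symm d23
      | (exfalso; omega)
  refine ⟨cDG ((range 5).image w) (F4 w), S, h2, w, ?_, key, ?_, rfl⟩
  · intro i hi
    rw [hv i hi, wM_eq S i hi]
  · rw [hw]
    ext c
    simp only [F4, Set.mem_insert_iff, Set.mem_singleton_iff]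
    tauto

end Pool.OddHC
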