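import Pool.Agent.Work.MP_8f87b2_mid.Types

/-!
# MP_8f87b2_co: the plain 5-cycle of a block

`bw A 0 > bw A 5 > bw A 7 > bw A 9 > bw A 6 > bw A 0` is a legal cycle: if the five words lie in five different
T-cycles it joins them (`pent_abs`). With the block `o, S, e, e, e` : `(o(S)) > o(S)o > S(o)o > (oo)S > oo(S)`
(`TyP5`: only the host `(o(S))` is old), mirrored `((S)o) > o(S)o > o(o)S > S(oo) > (S)oo` (`TyP5M`).
-/

set_option autoImplicit false

namespace Pool.OddHC

open Finset Equiv BinaryTree Pool.Agent.Work.MP_8f87b2_co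

variable {k : ℕ}

namespace P5

/-- merging two cycles: monotone, merged, the others unchanged -/
theorem merge_step {W : Type} [Fintype W] [DecidableEq W] {g : Perm W} {u v : W}
    (h : ¬ g.SameCycle u v) :
    (∀ a b, g.SameCycle a b → (g * swap u v).SameCycle a b) ∧ (g * swap u v).SameCycle u v ∧
      ∀ x, ¬ g.SameCycle x u → ¬ g.SameCycle x v → ∀ y, (g * swap u v).SameCycle x y →
        g.SameCycle x y := by
  have hm : (g * swap u v).SameCycle u v := swap_merge h
  have off : ∀ x, ¬ g.SameCycle x u → ¬ g.SameCycle x v → orb (g * swap u v) x = orb g x := by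
    intro x h1 h2
    apply orb_congr
    intro t ht
    apply swap_off
    · rintro rfl; exact h1 (mem_orb.1 ht)
    · rintro rfl; exact h2 (mem_orb.1 ht)
  refine ⟨?_, hm, ?_⟩
  · intro a b hab
    by_cases ha : g.SameCycle a u ∨ g.SameCycle a v
    · have hb : g.SameCycle b u ∨ g.SameCycle b v := by
        rcases ha with ha | ha
        · exact Or.inl (hab.symm.trans ha)
        · exact Or.inr (hab.symm.trans ha)
      have ha' : (g * swap u v).SameCycle a u := by
        rcases swap_reach ha with h | h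
        · exact h
        · exact h.trans hm.symm
      have hb' : (g * swap u v).SameCycle b u := by
        rcases swap_reach hb with h | h
        · exact h
        · exact h.trans hm.symm
      exact ha'.trans hb'.symm
    · rw [not_or] at ha
      have h5 : b ∈ orb g a := mem_orb.2 hab
      rw [← off a ha.1 ha.2] at h5
      exact mem_orb.1 h5
  · intro x h1 h2 y hy
    have h5 : y ∈ orb (g * swap u v) x := mem_orb.2 hy
    rw [off x h1 h2] at h5
    exact mem_orb.1 h5

/-- merging five cycles in a row -/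
theorem merge5 {W : Type} [Fintype W] [DecidableEq W] {f : Perm W} {a b c d e : W}
    (ab : ¬ f.SameCycle b a) (ac : ¬ f.SameCycle c a) (bc : ¬ f.SameCycle c b)
    (ad : ¬ f.SameCycle d a) (bd : ¬ f.SameCycle d b) (cd : ¬ f.SameCycle d c)
    (ae : ¬ f.SameCycle e a) (be : ¬ f.SameCycle e b) (ce : ¬ f.SameCycle e c)
    (de : ¬ f.SameCycle e d) :
    (∀ x y, f.SameCycle x y → (f * (swap a b * swap b c * swap c d * swap d e)).SameCycle x y) ∧
      (f * (swap a b * swap b c * swap c d * swap d e)).SameCycle a b ∧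
      (f * (swap a b * swap b c * swap c d * swap d e)).SameCycle b c ∧
      (f * (swap a b * swap b c * swap c d * swap d e)).SameCycle c d ∧
      (f * (swap a b * swap b c * swap c d * swap d e)).SameCycle d e := by
  have e0 : f * (swap a b * swap b c * swap c d * swap d e) =
      f * swap a b * swap b c * swap c d * swap d e := by
    simp only [mul_assoc]
  rw [e0]
  obtain ⟨m1, s1, i1⟩ := merge_step (g := f) (u := a) (v := b) (fun h => ab h.symm)
  have c1 : ∀ y, (f * swap a b).SameCycle c y → f.SameCycle c y := i1 c ac bc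
  have d1 : ∀ y, (f * swap a b).SameCycle d y → f.SameCycle d y := i1 d ad bd
  have e1 : ∀ y, (f * swap a b).SameCycle e y → f.SameCycle e y := i1 e ae be
  obtain ⟨m2, s2, i2⟩ := merge_step (g := f * swap a b) (u := b) (v := c)
    (fun h => bc (c1 _ h.symm))
  have d2 : ∀ y, (f * swap a b * swap b c).SameCycle d y → f.SameCycle d y :=
    fun y h => d1 y (i2 d (fun h => bd (d1 _ h)) (fun h => cd (d1 _ h)) y h)
  have e2 : ∀ y, (f * swap a b * swap b c).SameCycle e y → f.SameCycle e y :=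
    fun y h => e1 y (i2 e (fun h => be (e1 _ h)) (fun h => ce (e1 _ h)) y h)
  obtain ⟨m3, s3, i3⟩ := merge_step (g := f * swap a b * swap b c) (u := c) (v := d)
    (fun h => cd (d2 _ h.symm))
  have e3 : ∀ y, (f * swap a b * swap b c * swap c d).SameCycle e y → f.SameCycle e y :=
    fun y h => e2 y (i3 e (fun h => ce (e2 _ h)) (fun h => de (e2 _ h)) y h)
  obtain ⟨m4, s4, -⟩ := merge_step (g := f * swap a b * swap b c * swap c d) (u := d) (v := e)
    (fun h => de (e3 _ h.symm))
  exact ⟨fun x y h => m4 _ _ (m3 _ _ (m2 _ _ (m1 _ _ h))), m4 _ _ (m3 _ _ (m2 _ _ s1)),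
    m4 _ _ (m3 _ _ s2), m4 _ _ s3, s4⟩

/-- the five indices -/
def ix : ℕ → ℕ
  | 0 => 0
  | 1 => 5
  | 2 => 7
  | 3 => 9
  | _ => 6

end P5

/-- a gadget without arcs -/
noncomputable def cDG (B : Finset (X k)) (F : Set (Cyc k)) : DG k where
  B := B
  F := {x | cyc x ∈ F}
  arcs := ∅

/-- the four new T-cycles -/
def F4 (w : ℕ → X k) : Set (Cyc k) := {cyc (w 1), cyc (w 2), cyc (w 3), cyc (w 4)}

/-- THE PLAIN 5-CYCLE absorbs the T-cycles of four of its words (the word `w 0` is old) -/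
theorem pent_abs {A0 A1 A2 A3 A4 : BinaryTree Unit}
    (hk : A0.numNodes + A1.numNodes + A2.numNodes + A3.numNodes + A4.numNodes + 2 = k)
    {w : ℕ → X k} (hw : ∀ i < 5, (w i).1 = bw A0 A1 A2 A3 A4 (P5.ix i))
    (hne : ∀ i < 5, ∀ j < 5, cyc (w i) = cyc (w j) → i = j) :
    (cDG ((range 5).image w) (F4 w)).Abs := by
  classical
  intro f hfB hfF _ _
  have hinj : ∀ i < 5, ∀ j < 5, w i = w j → i = j := fun i hi j hj h => hne i hi j hj (by rw [h])
  have hFcl : ∀ x y, TT.SameCycle x y →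
      x ∈ (cDG ((range 5).image w) (F4 w)).F → y ∈ (cDG ((range 5).image w) (F4 w)).F := by
    intro x y h hx
    change cyc x ∈ F4 w at hx
    change cyc y ∈ F4 w
    rw [← cyc_eq.2 h]
    exact hx
  have hFm : ∀ i < 5, i ≠ 0 →
      w i ∈ (cDG ((range 5).image w) (F4 w)).F := by
    intro i hi h0
    change cyc (w i) ∈ F4 w
    interval_cases i
    · exact absurd rfl h0
    all_goals simp [F4]
  have hn : ∀ i < 5, ∀ j < 5, i ≠ j → i ≠ 0 → ¬ f.SameCycle (w i) (w j) := by
    intro i hi j hj hij h0 h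
    have h1 := (same_of_agree hFcl hfF (hFm i hi h0)).1 h
    exact hij (hne i hi j hj (cyc_eq.2 h1))
  obtain ⟨m, s1, s2, s3, s4⟩ := P5.merge5 (f := f) (a := w 0) (b := w 1) (c := w 2) (d := w 3)
    (e := w 4) (hn 1 (by omega) 0 (by omega) (by omega) (by omega))
    (hn 2 (by omega) 0 (by omega) (by omega) (by omega))
    (hn 2 (by omega) 1 (by omega) (by omega) (by omega))
    (hn 3 (by omega) 0 (by omega) (by omega) (by omega))
    (hn 3 (by omega) 1 (by omega) (by omega) (by omega))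
    (hn 3 (by omega) 2 (by omega) (by omega) (by omega))
    (hn 4 (by omega) 0 (by omega) (by omega) (by omega))
    (hn 4 (by omega) 1 (by omega) (by omega) (by omega))
    (hn 4 (by omega) 2 (by omega) (by omega) (by omega))
    (hn 4 (by omega) 3 (by omega) (by omega) (by omega))
  have hd : ∀ i < 5, ∀ j < 5, i ≠ j → w i ≠ w j := fun i hi j hj h e => h (hinj i hi j hj e)
  have n01 := hd 0 (by omega) 1 (by omega) (by omega)
  have n02 := hd 0 (by omega) 2 (by omega) (by omega)
  have n03 := hd 0 (by omega) 3 (by omega) (by omega)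
  have n04 := hd 0 (by omega) 4 (by omega) (by omega)
  have n12 := hd 1 (by omega) 2 (by omega) (by omega)
  have n13 := hd 1 (by omega) 3 (by omega) (by omega)
  have n14 := hd 1 (by omega) 4 (by omega) (by omega)
  have n23 := hd 2 (by omega) 3 (by omega) (by omega)
  have n24 := hd 2 (by omega) 4 (by omega) (by omega)
  have n34 := hd 3 (by omega) 4 (by omega) (by omega)
  obtain ⟨π, hπ⟩ : ∃ π : Perm (X k), π = swap (w 0) (w 1) * swap (w 1) (w 2) * swap (w 2) (w 3) *
    swap (w 3) (w 4) := ⟨_, rfl⟩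
  rw [← hπ] at m s1 s2 s3 s4
  have p0 : π (w 0) = w 1 := by
    rw [hπ]
    simp only [Perm.mul_apply]
    rw [swap_apply_of_ne_of_ne n03 n04, swap_apply_of_ne_of_ne n02 n03,
      swap_apply_of_ne_of_ne n01 n02, swap_apply_left]
  have p1 : π (w 1) = w 2 := by
    rw [hπ]
    simp only [Perm.mul_apply]
    rw [swap_apply_of_ne_of_ne n13 n14, swap_apply_of_ne_of_ne n12 n13, swap_apply_left,
      swap_apply_of_ne_of_ne n02.symm n12.symm]
  have p2 : π (w 2) = w 3 := by
    rw [hπ]
    simp only [Perm.mul_apply]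
    rw [swap_apply_of_ne_of_ne n23 n24, swap_apply_left,
      swap_apply_of_ne_of_ne n13.symm n23.symm, swap_apply_of_ne_of_ne n03.symm n13.symm]
  have p3 : π (w 3) = w 4 := by
    rw [hπ]
    simp only [Perm.mul_apply]
    rw [swap_apply_left, swap_apply_of_ne_of_ne n24.symm n34.symm,
      swap_apply_of_ne_of_ne n14.symm n24.symm, swap_apply_of_ne_of_ne n04.symm n14.symm]
  have p4 : π (w 4) = w 0 := by
    rw [hπ]
    simp only [Perm.mul_apply]
    rw [swap_apply_right, swap_apply_right, swap_apply_right, swap_apply_right]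
  have poff : ∀ x, (∀ i < 5, w i ≠ x) → π x = x := by
    intro x hx
    rw [hπ]
    simp only [Perm.mul_apply]
    rw [swap_apply_of_ne_of_ne (hx 3 (by omega)).symm (hx 4 (by omega)).symm,
      swap_apply_of_ne_of_ne (hx 2 (by omega)).symm (hx 3 (by omega)).symm,
      swap_apply_of_ne_of_ne (hx 1 (by omega)).symm (hx 2 (by omega)).symm,
      swap_apply_of_ne_of_ne (hx 0 (by omega)).symm (hx 1 (by omega)).symm]
  obtain ⟨z, hz, hl⟩ := legal_of_list (N := 5) w
    (fun i => ((0 : ZMod (2 * k + 1)) +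
      (bs A0.numNodes A1.numNodes A2.numNodes A3.numNodes (P5.ix i) : ℕ)))
    (fun i j => Abs.bit (bal.getD (P5.ix i) 0) (P5.ix j) = true) hinj (by
      intro i hi j hj h
      have h1 : P5.ix i < 10 := by interval_cases i <;> decide
      have h2 : P5.ix j < 10 := by interval_cases j <;> decide
      exact block_al A0 A1 A2 A3 A4 hk h1 h2 (hw i hi) (hw j hj) h 0) π poff (by
      intro i hi
      interval_cases i
      · exact ⟨1, by omega, by decide, p0⟩
      · exact ⟨2, by omega, by decide, p1⟩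
      · exact ⟨3, by omega, by decide, p2⟩
      · exact ⟨4, by omega, by decide, p3⟩
      · exact ⟨0, by omega, by decide, p4⟩)
  have hB : ∀ x, x ∉ (cDG ((range 5).image w) (F4 w)).B →
      ∀ i < 5, w i ≠ x := by
    intro x hx i hi he
    apply hx
    change x ∈ (range 5).image w
    exact mem_image.2 ⟨i, mem_range.2 hi, he⟩
  refine ⟨π, z, hl, fun x hx => poff x (hB x hx), fun x hx => hz x (hB x hx), m, ?_⟩
  have key : ∀ u ∈ (cDG ((range 5).image w) (F4 w)).B,
      (f * π).SameCycle (w 0) u := by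
    intro u hu
    change u ∈ (range 5).image w at hu
    obtain ⟨i, hi, rfl⟩ := mem_image.1 hu
    rw [mem_range] at hi
    interval_cases i
    · exact Perm.SameCycle.refl _ _
    · exact s1
    · exact s1.trans s2
    · exact (s1.trans s2).trans s3
    · exact ((s1.trans s2).trans s3).trans s4
  intro u hu v hv
  exact (key u hu).symm.trans (key v hv)

/-! ### The type -/

/-- TYPE PENT: the plain 5-cycle of the block `A0 .. A4`, old word `A4(A0(A1)A2)A3` -/
def TyPent (A0 A1 A2 A3 A4 : BinaryTree Unit) (F : Set (Cyc k)) (g : DG k) : Prop :=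
  ∃ w : ℕ → X k, (∀ i < 5, (w i).1 = bw A0 A1 A2 A3 A4 (P5.ix i)) ∧
    (∀ i < 5, ∀ j < 5, cyc (w i) = cyc (w j) → i = j) ∧ F = F4 w ∧
    g = cDG ((range 5).image w) (F4 w)

section
variable {A0 A1 A2 A3 A4 : BinaryTree Unit} {F : Set (Cyc k)} {g : DG k}

theorem TyPent.hF (h : TyPent A0 A1 A2 A3 A4 F g) : ∀ w, w ∈ g.F ↔ cyc w ∈ F := by
  obtain ⟨w, hw, hn, rfl, rfl⟩ := h
  intro x
  exact Iff.rfl

theorem TyPent.mem (h : TyPent A0 A1 A2 A3 A4 F g) : ∀ x ∈ g.B, ∃ i < 5,
    x.1 = bw A0 A1 A2 A3 A4 (P5.ix i) ∧ (i ≠ 0 → cyc x ∈ F) ∧ (i = 0 → cyc x ∉ F) := by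
  obtain ⟨w, hw, hn, rfl, rfl⟩ := h
  intro x hx
  change x ∈ (range 5).image w at hx
  obtain ⟨i, hi, rfl⟩ := mem_image.1 hx
  rw [mem_range] at hi
  refine ⟨i, hi, hw i hi, ?_, ?_⟩
  · intro h0
    interval_cases i
    · exact absurd rfl h0
    all_goals simp [F4]
  · rintro rfl h
    simp only [F4, Set.mem_insert_iff, Set.mem_singleton_iff] at h
    rcases h with h | h | h | h
    · exact absurd (hn 0 (by omega) 1 (by omega) h) (by omega)
    · exact absurd (hn 0 (by omega) 2 (by omega) h) (by omega)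
    · exact absurd (hn 0 (by omega) 3 (by omega) h) (by omega)
    · exact absurd (hn 0 (by omega) 4 (by omega) h) (by omega)

theorem TyPent.new (h : TyPent A0 A1 A2 A3 A4 F g) : ∀ c ∈ F, ∃ u ∈ g.B, cyc u = c := by
  obtain ⟨w, hw, hn, rfl, rfl⟩ := h
  have hm : ∀ i < 5, w i ∈ (range 5).image w := fun i hi =>
    mem_image.2 ⟨i, mem_range.2 hi, rfl⟩
  rintro c (rfl | rfl | rfl | rfl)
  · exact ⟨w 1, hm 1 (by omega), rfl⟩
  · exact ⟨w 2, hm 2 (by omega), rfl⟩
  · exact ⟨w 3, hm 3 (by omega), rfl⟩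
  · exact ⟨w 4, hm 4 (by omega), rfl⟩

theorem TyPent.old (h : TyPent A0 A1 A2 A3 A4 F g) : ∃ u ∈ g.B, cyc u ∉ F := by
  have h' := h
  obtain ⟨w, hw, hn, rfl, rfl⟩ := h
  refine ⟨w 0, mem_image.2 ⟨0, mem_range.2 (by omega), rfl⟩, ?_⟩
  intro h
  simp only [F4, Set.mem_insert_iff, Set.mem_singleton_iff] at h
  rcases h with h | h | h | h
  · exact absurd (hn 0 (by omega) 1 (by omega) h) (by omega)
  · exact absurd (hn 0 (by omega) 2 (by omega) h) (by omega)
  · exact absurd (hn 0 (by omega) 3 (by omega) h) (by omega)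
  · exact absurd (hn 0 (by omega) 4 (by omega) h) (by omega)

theorem TyPent.arcs (h : TyPent A0 A1 A2 A3 A4 F g) : g.arcs = ∅ := by
  obtain ⟨w, hw, hn, rfl, rfl⟩ := h
  rfl

theorem TyPent.path (h : TyPent A0 A1 A2 A3 A4 F g) : ∀ a ∈ g.arcs, ∃ n : ℕ,
    (TT ^ (n + 1)) a.1 = a.2 ∧ a.1 ∈ g.B ∧
    ∀ i < n, (TT ^ (i + 1)) a.1 ∉ g.B ∧ (TT ^ (i + 1)) a.1 ∈ innA a := by
  intro a ha
  rw [h.arcs] at ha
  exact absurd ha (Set.notMem_empty _)

theorem TyPent.abs (h : TyPent A0 A1 A2 A3 A4 F g) : g.Abs := by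
  obtain ⟨w, hw, hn, rfl, rfl⟩ := h
  refine pent_abs (A0 := A0) (A1 := A1) (A2 := A2) (A3 := A3) (A4 := A4) ?_ hw hn
  have h0 : (w 0).1.numNodes = k := X_num (w 0)
  rw [hw 0 (by omega)] at h0
  change (w1 A4 (w1 A0 A1 A2) A3).numNodes = k at h0
  rw [w1_num, w1_num] at h0
  omega

end

end Pool.OddHC
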